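import Mathlib

namespace Pool.Agent.H.MP_74d590_lc

abbrev Ty := (Fin 4 → ℕ) × ℕ × ℕ

def hole (K k ox oy x y : ℕ) : Prop := (ox + 2 ≤ x ∧ x < ox + 2 + K ∧ y = oy + 3 * k + 2) ∨ (x = ox + 2 + k ∧ y = oy + 3 * k + 3)

def ox (N : ℕ) (s : Fin 4) : ℕ := ![2 * N, N, 0, N] s
def oy (N : ℕ) (s : Fin 4) : ℕ := ![N, 2 * N, N, 0] s

def Bd (K : ℕ) (τ : Ty) (x y : ℕ) : Prop := 3 * K + 4 ≤ x ∧ x < 3 * K + 4 + τ.2.1 ∧ 3 * K + 4 ≤ y ∧ y < 3 * K + 4 + τ.2.2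

def Sh (K : ℕ) (τ : Ty) (x y : ℕ) : Prop :=
  (Bd K τ x y ∧ ∀ s, τ.1 s ≠ 0 → ¬ hole K (4 * τ.1 s + s) (3 * K + 4) (3 * K + 4) x y) ∨
    ∃ s, τ.1 s ≠ 0 ∧ hole K (4 * τ.1 s + (s + 2 : Fin 4)) (ox (3 * K + 4) s) (oy (3 * K + 4) s) x y

def Wf (K : ℕ) (τ : Ty) : Prop := (∀ s, 4 * τ.1 s + 3 < K) ∧ 3 * K + 4 ≤ τ.2.1 ∧ 3 * K + 4 ≤ τ.2.2

def Cov (S : Ty → ℕ → ℕ → Prop) (p : ℤ × ℤ) (τ : Ty) (u : ℤ × ℤ) : Prop := ∃ x y : ℕ, u.1 = p.1 + x ∧ u.2 = p.2 + y ∧ S τ x y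

def mv (K : ℕ) (p : ℤ × ℤ) (s : Fin 4) : ℤ × ℤ := (p.1 + ox (3 * K + 4) s - (3 * K + 4), p.2 + oy (3 * K + 4) s - (3 * K + 4))

def Til (S : Ty → ℕ → ℕ → Prop) (Pl : ℤ × ℤ → Ty → Prop) : Prop :=
  (∀ u, ∃ p τ, Pl p τ ∧ Cov S p τ u) ∧ ∀ u p τ p' τ', Pl p τ → Pl p' τ' → Cov S p τ u → Cov S p' τ' u → p = p' ∧ τ = τ'

def Nb (K : ℕ) (Pl : ℤ × ℤ → Ty → Prop) : Prop := ∀ p τ s, Pl p τ → τ.1 s ≠ 0 → ∃ τ', Pl (mv K p s) τ' ∧ τ'.1 (s + 2) = τ.1 s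

theorem oo (N : ℕ) (s : Fin 4) : ox N s + ox N (s + 2) = 2 * N ∧ oy N s + oy N (s + 2) = 2 * N ∧
    (ox N s = 2 * N ∨ ox N s = 0 ∨ oy N s = 2 * N ∨ oy N s = 0) := by
  fin_cases s <;> simp [ox, oy] <;> omega

theorem two (s : Fin 4) : s + 2 + 2 = s := by fin_cases s <;> rfl

variable {K : ℕ} {Pl : ℤ × ℤ → Ty → Prop} (hW : ∀ p τ, Pl p τ → Wf K τ)
include hW

theorem force (h : Til (Sh K) Pl) : Nb K Pl := by
  intro p τ s a b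
  obtain ⟨w1, w2, w3⟩ := hW p τ a
  have w4 := w1 s
  have l := s.2
  obtain ⟨k, e⟩ : ∃ k, k = 4 * τ.1 s + s := ⟨_, rfl⟩
  obtain ⟨p', τ', a', x, y, e1, e2, c⟩ := h.1 (p.1 + (3 * K + 4 + 2 + k : ℕ), p.2 + (3 * K + 4 + 3 * k + 3 : ℕ))
  obtain ⟨v1, v2, v3⟩ := hW p' τ' a'
  have n : ∀ x' y' x'' y'' : ℕ, p.1 + x' = p'.1 + x'' → p.2 + y' = p'.2 + y'' → Sh K τ x' y' → ¬ Sh K τ' x'' y'' := fun x' y' x'' y'' i j m m' => by
    obtain ⟨rfl, rfl⟩ := h.2 (p.1 + x', p.2 + y') _ _ _ _ a a' ⟨x', y', rfl, rfl, m⟩ ⟨x'', y'', i, j, m'⟩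
    obtain ⟨-, c⟩ | ⟨s', -, c⟩ := c
    · exact c s b (.inr (by omega))
    · have := oo (3 * K + 4) s'
      have := w1 s'
      have := (s' + 2).2
      unfold hole at c
      omega
  have bd : ∀ x' y', Bd K τ x' y' → y' = 3 * K + 4 + 3 * k + 2 ∨ y' = 3 * K + 4 + 3 * k + 3 → ¬ hole K k (3 * K + 4) (3 * K + 4) x' y' → Sh K τ x' y' :=
    fun x' y' i j m => .inl ⟨i, fun s' _ o => m (by unfold hole at *; omega)⟩
  dsimp only at e1 e2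
  have x0 : 0 < x := by
    obtain ⟨c, -⟩ | ⟨s', -, c⟩ := c
    · unfold Bd at c; omega
    · unfold hole at c; omega
  have n1 := n _ _ (x + 1) y (by omega) (by omega) (bd (3 * K + 4 + 3 + k) _ (by unfold Bd; omega) (.inr rfl) (by unfold hole; omega))
  have n2 := n _ _ (x - 1) y (by omega) (by omega) (bd (3 * K + 4 + 1 + k) _ (by unfold Bd; omega) (.inr rfl) (by unfold hole; omega))
  obtain ⟨c, d⟩ | ⟨s', c, d⟩ := c
  · simp only [Sh, not_or, not_and, not_forall, not_not] at n1 n2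
    unfold Bd at *
    by_cases i : x + 1 < 3 * K + 4 + τ'.2.1 <;> by_cases j : 3 * K + 4 < x
    · obtain ⟨s1, b1, c1⟩ := n1.1 (by omega)
      obtain ⟨s2, b2, c2⟩ := n2.1 (by omega)
      have := d s1 b1
      unfold hole at *
      omega
    · obtain ⟨s1, b1, c1⟩ := n1.1 (by omega)
      unfold hole at *
      omega
    · obtain ⟨s2, b2, c2⟩ := n2.1 (by omega)
      have := v1 s2
      have := s2.2
      unfold hole at *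
      omega
    · omega
  have v4 := v1 s'
  have l' := (s' + 2).2
  obtain ⟨k', e'⟩ : ∃ k', k' = 4 * τ'.1 s' + (s' + 2 : Fin 4) := ⟨_, rfl⟩
  have m : ∀ x y, hole K k' (ox (3 * K + 4) s') (oy (3 * K + 4) s') x y → Sh K τ' x y := fun x y i => .inr ⟨s', c, e' ▸ i⟩
  rw [← e'] at d
  obtain d | d := d
  · exact (n1 (m _ _ (.inl (by_contra fun i => n2 (m _ _ (.inl (by omega))))))).elim
  obtain i | i | i := lt_trichotomy k k'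
  · exact (n _ _ (x - k - 1) (y - 1) (by omega) (by omega) (bd (3 * K + 4 + 1) _ (by unfold Bd; omega) (.inl rfl) (by unfold hole; omega))
      (m _ _ (.inl (by omega)))).elim
  · obtain rfl : s = s' + 2 := Fin.ext (by omega)
    have := oo (3 * K + 4) s'
    exact ⟨τ', by rwa [show mv K p (s' + 2) = p' from Prod.ext (by simp only [mv]; omega) (by simp only [mv]; omega)], by rw [two]; omega⟩
  · exact (n _ _ (x + K - k) (y - 1) (by omega) (by omega) (bd (3 * K + 4 + 2 + K) _ (by unfold Bd; omega) (.inl rfl) (by unfold hole; omega))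
      (m _ _ (.inl (by omega)))).elim

theorem assemble (h : Til (Bd K) Pl) (n : Nb K Pl) : Til (Sh K) Pl := by
  constructor
  · intro u
    obtain ⟨p, τ, a, x, y, e1, e2, c⟩ := h.1 u
    by_cases i : ∀ s, τ.1 s ≠ 0 → ¬ hole K (4 * τ.1 s + s) (3 * K + 4) (3 * K + 4) x y
    · exact ⟨p, τ, a, x, y, e1, e2, .inl ⟨c, i⟩⟩
    simp only [not_forall, not_not] at i
    obtain ⟨s, b, d⟩ := i
    obtain ⟨τ', a', e⟩ := n p τ s a b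
    have := oo (3 * K + 4) s
    unfold Bd at c
    exact ⟨_, τ', a', x - (3 * K + 4) + ox (3 * K + 4) (s + 2), y - (3 * K + 4) + oy (3 * K + 4) (s + 2), by simp only [mv]; omega,
      by simp only [mv]; omega, .inr ⟨s + 2, e ▸ b, by rw [two, e]; unfold hole at *; omega⟩⟩
  have k : ∀ {u p : ℤ × ℤ} {τ s} {x y : ℕ}, Pl p τ → τ.1 s ≠ 0 → u.1 = p.1 + x → u.2 = p.2 + y →
      hole K (4 * τ.1 s + (s + 2 : Fin 4)) (ox (3 * K + 4) s) (oy (3 * K + 4) s) x y → ∃ τ', Pl (mv K p s) τ' ∧ τ'.1 (s + 2) = τ.1 s ∧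
        ∃ x' y' : ℕ, u.1 = (mv K p s).1 + x' ∧ u.2 = (mv K p s).2 + y' ∧ Bd K τ' x' y' ∧
          hole K (4 * τ.1 s + (s + 2 : Fin 4)) (3 * K + 4) (3 * K + 4) x' y' := fun {u p τ s x y} a b e1 e2 c => by
    obtain ⟨τ', a', e⟩ := n p τ s a b
    obtain ⟨w1, w2, w3⟩ := hW _ _ a'
    have := w1 (s + 2)
    have := (s + 2).2
    refine ⟨τ', a', e, x + (3 * K + 4) - ox (3 * K + 4) s, y + (3 * K + 4) - oy (3 * K + 4) s, ?_⟩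
    simp only [mv, Bd, hole] at *
    omega
  rintro u p τ p' τ' a a' ⟨x, y, e1, e2, ⟨c, d⟩ | ⟨s, c, d⟩⟩ ⟨x', y', e1', e2', ⟨c', d'⟩ | ⟨s', c', d'⟩⟩
  · exact h.2 u _ _ _ _ a a' ⟨x, y, e1, e2, c⟩ ⟨x', y', e1', e2', c'⟩
  · obtain ⟨σ, b, e, z, w, f1, f2, g, i⟩ := k a' c' e1' e2' d'
    obtain ⟨rfl, rfl⟩ := h.2 u _ _ _ _ a b ⟨x, y, e1, e2, c⟩ ⟨z, w, f1, f2, g⟩
    exact (d (s' + 2) (e ▸ c') (by rw [e]; unfold hole at *; omega)).elim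
  · obtain ⟨σ, b, e, z, w, f1, f2, g, i⟩ := k a c e1 e2 d
    obtain ⟨rfl, rfl⟩ := h.2 u _ _ _ _ a' b ⟨x', y', e1', e2', c'⟩ ⟨z, w, f1, f2, g⟩
    exact (d' (s + 2) (e ▸ c) (by rw [e]; unfold hole at *; omega)).elim
  · obtain ⟨σ, b, e, z, w, f1, f2, g, i⟩ := k a c e1 e2 d
    obtain ⟨σ', b', e', z', w', f1', f2', g', i'⟩ := k a' c' e1' e2' d'
    obtain ⟨j, rfl⟩ := h.2 u _ _ _ _ b b' ⟨z, w, f1, f2, g⟩ ⟨z', w', f1', f2', g'⟩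
    have := (s + 2).2
    have := (s' + 2).2
    rw [← j] at f1' f2'
    obtain rfl : s = s' := by rw [← two s, ← two s', show s + 2 = s' + 2 from Fin.ext (by unfold hole at *; omega)]
    obtain rfl : p = p' := by
      simp only [mv, Prod.mk.injEq] at j
      exact Prod.ext (by omega) (by omega)
    have := hW _ _ a
    have := hW _ _ a'
    exact h.2 (p.1 + (3 * K + 4 : ℕ), p.2 + (3 * K + 4 : ℕ)) _ _ _ _ a a' ⟨_, _, rfl, rfl, by unfold Bd Wf at *; omega⟩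
      ⟨_, _, rfl, rfl, by unfold Bd Wf at *; omega⟩

theorem clash (h : Til (Sh K) Pl) {p τ p' τ'} (a : Pl p τ) (a' : Pl p' τ') {i j : ℕ} (e1 : p'.1 = p.1 + i) (e2 : p'.2 = p.2 + j)
    (b : i < 3 * K + 4) (c : j < 3 * K + 4) (d : i = 0 ∨ j = 0) : p = p' ∧ τ = τ' := by
  have := hW _ _ a
  have := hW _ _ a'
  exact h.2 (p'.1 + (3 * K + 4 : ℕ), p'.2 + (3 * K + 4 : ℕ)) _ _ _ _ a a' ⟨3 * K + 4 + i, 3 * K + 4 + j, by simp only; omega, by simp only; omega,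
    .inl ⟨by unfold Bd Wf at *; omega, fun _ _ => by unfold hole; omega⟩⟩ ⟨_, _, rfl, rfl, .inl ⟨by unfold Bd Wf at *; omega, fun _ _ => by unfold hole; omega⟩⟩

end Pool.Agent.H.MP_74d590_lc
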