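import Mathlib
import Pool.Agent.H.MP_74d590_lc.G
import Pool.Agent.Lib.helper21.Mach

namespace Pool.Agent.H.MP_74d590_lc

open Pool.Agent.Lib.helper21.Mach Pool.Agent.Lib.helper21.While

structure Th (Q : Type) where
  g : Option (Q × Bool)
  l : Q → Bool
  c : Q → Bool
  r : Q → Bool
  f : Fin 4 → Bool

abbrev La (Q : Type) := (Option (Q × Bool) × (Q → Bool) × (Q → Bool) × Bool × Bool) ⊕ (Option Q × (Q → Bool) × Bool × Bool)

variable {Q : Type} (M : CM Q) (e : La Q → ℕ) (n : ℕ)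

def nw (θ : Th Q) (p : Q) : Bool := match θ.g with
  | none => θ.c p
  | some (q, t) => if M.reg p = M.reg q then match M.eff q t with
    | none => θ.c p
    | some true => θ.l p
    | some false => θ.r p
    else θ.c p

def dt (θ : Th Q) : Fin 4 → La Q := ![.inl (θ.g, θ.c, θ.r, θ.f 3, θ.f 1), .inr (θ.g.bind fun x => M.nxt x.1 x.2, nw M θ, θ.f 2, θ.f 0),
  .inl (θ.g, θ.l, θ.c, θ.f 3, θ.f 1), .inr (θ.g.map (·.1), θ.c, θ.f 2, θ.f 0)]

def col (θ : Th Q) (i : ℕ) (s : Fin 4) : ℕ := if θ.f s then 0 else Nat.pair (e (dt M θ s)) (![min (i + 1) (n + 1), 0, i, 0] s) + 1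

def Ok (θ : Th Q) (i : ℕ) : Prop := i ≤ n + 1 ∧ (θ.f 2 → i = 0 ∧ θ.l = fun _ => true) ∧ (θ.f 0 → i = n + 1 ∧ θ.c = (fun _ => false) ∧ θ.r = fun _ => false) ∧
  (θ.f 3 → θ.g.map (·.1) = some M.start ∧ θ.c = fun _ => false) ∧ (θ.f 1 → θ.g = none) ∧ ∀ q t, θ.g = some (q, t) → i = M.thr n q → t = !θ.c q

def Al (N : ℕ) (τ : Ty) : Prop := ∃ θ i, Ok M n θ i ∧ τ.1 = col M e n θ i ∧ N ≤ τ.2.1 ∧ τ.2.1 < 2 * N ∧ N ≤ τ.2.2 ∧ τ.2.2 < 2 * N

def cf : ℕ → Option Q × St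
  | 0 => (some M.start, fun _ => 0)
  | j + 1 => match (cf j).1 with
    | none => cf j
    | some q => (M.nxt q (M.tst n (q, (cf j).2)), app (M.eff q (M.tst n (q, (cf j).2))) (M.reg q) (cf j).2)

theorem it_cf (j) : M.it n j = (cf M n j).1.map (·, (cf M n j).2) := by
  induction j with
  | zero => rfl
  | succ j ih => rw [CM.it_succ, ih, cf]; cases h : (cf M n j).1 <;> simp [h, CM.step]

def bt (s : St) (j : ℕ) (p : Q) : Bool := decide (j ≤ s (M.reg p))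

theorem nw_bt {θ : Th Q} {q t s k} (h : θ.g = some (q, t)) (a : θ.l = bt M s k) (b : θ.c = bt M s (k + 1)) (c : θ.r = bt M s (k + 2)) :
    nw M θ = bt M (app (M.eff q t) (M.reg q) s) (k + 1) := by
  funext p
  simp only [nw, h, a, b, c, bt, app]
  rcases M.eff q t with _ | _ | _ <;> by_cases i : M.reg p = M.reg q <;> simp [i]
  omega

variable {M e n} {K : ℕ} {Pl : ℤ × ℤ → Ty → Prop}

theorem col_zero {θ : Th Q} {i s} : col M e n θ i s = 0 ↔ θ.f s := by unfold col; split_ifs with h <;> simp [h]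

section
variable (he : Function.Injective e) (hA : ∀ p τ, Pl p τ → Al M e n (3 * K + 4) τ) (hN : Nb K Pl) (hF : ∀ p τ τ', Pl p τ → Pl p τ' → τ = τ')
include he hA hN hF

theorem ray {p τ} (h : Pl p τ) (h2 : τ.1 2 = 0) (h3 : τ.1 3 = 0) (hn : ∀ j, (cf M n j).1 ≠ none) (j : ℕ) :
    ∃ τ, Pl (p.1, p.2 + (3 * K + 4) * j) τ := by
  let E := fun (k j : ℕ) θ i => Ok M n θ i ∧ ∃ a, Pl (p.1 + (3 * K + 4) * k, p.2 + (3 * K + 4) * j) (col M e n θ i, a)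
  have ex : ∀ {x τ}, Pl x τ → ∃ θ i, Ok M n θ i ∧ ∃ a, Pl x (col M e n θ i, a) := fun {_ τ} a => (hA _ _ a).elim fun θ ⟨i, b, c, _⟩ =>
    ⟨θ, i, b, τ.2, c ▸ a⟩
  have sm : ∀ {k j θ i θ' i'}, E k j θ i → E k j θ' i' → col M e n θ i = col M e n θ' i' := fun ⟨_, _, a⟩ ⟨_, _, b⟩ => congrArg Prod.fst (hF _ _ _ a b)
  have fl : ∀ {k j θ i θ' i'}, E k j θ i → E k j θ' i' → ∀ s, (θ.f s ↔ θ'.f s) := fun a b s => by rw [← col_zero, sm a b, col_zero]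
  have cl : ∀ {θ i θ' i' s s'}, ¬ θ.f s → col M e n θ' i' s' = col M e n θ i s → ¬ θ'.f s' ∧ dt M θ' s' = dt M θ s ∧
      ![min (i' + 1) (n + 1), 0, i', 0] s' = ![min (i + 1) (n + 1), 0, i, 0] s := fun {θ i θ' i' s s'} a b => by
    have : ¬ θ'.f s' := by rwa [← col_zero, b, col_zero]
    simp only [col, a, this, Bool.false_eq_true, if_false, add_left_inj, Nat.pair_eq_pair, he.eq_iff] at b
    exact ⟨this, b⟩
  have nb : ∀ {k j θ i} {k' j' : ℕ} s, E k j θ i → ¬ θ.f s → mv K (p.1 + (3 * K + 4) * k, p.2 + (3 * K + 4) * j) s =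
      (p.1 + (3 * K + 4) * k', p.2 + (3 * K + 4) * j') → (∃ θ' i', E k' j' θ' i') ∧ ∀ θ' i', E k' j' θ' i' → col M e n θ' i' (s + 2) = col M e n θ i s :=
    fun s ⟨_, _, a⟩ b c => by
      obtain ⟨τ', d, f⟩ := hN _ _ s a (mt col_zero.1 b)
      rw [c] at d
      exact ⟨ex d, fun θ' i' ⟨_, _, g⟩ => (congrFun (congrArg Prod.fst (hF _ _ _ g d)) _).trans f⟩
  have nr : ∀ {k j θ i}, E k j θ i → ¬ θ.f 0 → (∃ θ' i', E (k + 1) j θ' i') ∧ ∀ θ' i', E (k + 1) j θ' i' → ¬ θ'.f 2 ∧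
      (θ'.g = θ.g ∧ θ'.l = θ.c ∧ θ'.c = θ.r ∧ θ'.f 3 = θ.f 3 ∧ θ'.f 1 = θ.f 1) ∧ i' = min (i + 1) (n + 1) := fun {k j _ _} a b =>
    (nb (k' := k + 1) (j' := j) 0 a b (by simp [mv, ox, oy]; ring)).imp_right fun c θ' i' d => by simpa [dt] using cl b (c θ' i' d)
  let Wd := fun k => ∀ k' < k, ∀ θ i, E k' 0 θ i → ¬ θ.f 0
  have wd : ∀ {k}, Wd (k + 1) → Wd k := fun a k' b => a k' (by omega)
  have w0 : Wd 0 := fun _ a => by omega
  suffices ∀ j k, Wd k → (∃ θ i, E k j θ i) ∧ ∀ θ i, E k j θ i → θ.g.map (·.1) = (cf M n j).1 ∧ θ.c = bt M (cf M n j).2 (k + 1) ∧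
      (θ.f 2 ↔ k = 0) ∧ (¬ θ.f 0 ↔ Wd (k + 1)) by
    obtain ⟨_, _, -, _, a⟩ := (this j 0 w0).1
    exact ⟨_, by simpa using a⟩
  intro j
  induction j with
  | zero =>
    have : ∀ k, Wd k → (∃ θ i, E k 0 θ i) ∧ ∀ θ i, E k 0 θ i → θ.f 3 ∧ (θ.f 2 ↔ k = 0) := fun k => by
      induction k with
      | zero =>
        exact fun _ => ⟨ex (τ := τ) (by simpa), fun θ i ⟨_, _, a⟩ => by
          obtain rfl := hF _ _ _ h (by simpa using a)
          simpa [← col_zero (M := M) (e := e) (n := n) (i := i)] using And.intro h3 h2⟩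
      | succ k ih =>
        intro a
        obtain ⟨⟨θ, i, b⟩, c⟩ := ih (wd a)
        obtain ⟨d0, d⟩ := nr b (a k (by omega) θ i b)
        exact ⟨d0, fun θ' i' f => ⟨(d θ' i' f).2.1.2.2.2.1.trans (c θ i b).1, by simpa using (d θ' i' f).1⟩⟩
    refine fun k a => (this k a).imp_right fun b θ i c => ⟨(c.1.2.2.2.1 (b θ i c).1).1, (c.1.2.2.2.1 (b θ i c).1).2.trans (by funext; simp [bt, cf]),
      (b θ i c).2, fun d k' l θ' i' f => ?_, fun d => d k (by omega) θ i c⟩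
    obtain rfl | l := (Nat.le_of_lt_succ l).eq_or_lt
    exacts [mt (fl f c 0).1 d, a k' l θ' i' f]
  | succ j ih =>
    obtain ⟨q, hq⟩ := Option.ne_none_iff_exists'.1 (hn j)
    obtain ⟨θ0, i0, a0⟩ := (ih 0 w0).1
    have H : ∀ k, Wd k → ∀ θ i, E k j θ i → i = min k (n + 1) ∧ θ.l = bt M (cf M n j).2 k ∧ θ.g = θ0.g := fun k => by
      induction k with
      | zero =>
        intro _ θ i a
        have b := a.1.2.1 (((ih 0 w0).2 θ i a).2.2.1.2 rfl)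
        have b0 := a0.1.2.1 (((ih 0 w0).2 _ _ a0).2.2.1.2 rfl)
        have := cl (s := 0) (fun c => by have := (a0.1.2.2.1 c).1; omega) (congrFun (sm a a0) 0)
        exact ⟨by omega, b.2.trans (by funext; simp [bt]), by simp [dt] at this; exact this.2.1.1⟩
      | succ k ik =>
        intro a θ' i' f
        obtain ⟨⟨θ, i, b⟩, c⟩ := ih k (wd a)
        obtain ⟨-, ⟨d1, d2, -⟩, d3⟩ := (nr b ((c θ i b).2.2.2.2 a)).2 θ' i' f
        obtain ⟨e1, -, e3⟩ := ik (wd a) θ i b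
        exact ⟨by omega, d2.trans (c θ i b).2.1, d1.trans e3⟩
    have W : ∀ k ≤ n + 1, Wd k := fun k => by
      induction k with
      | zero => exact fun _ => w0
      | succ k ik =>
        intro a
        obtain ⟨⟨θ, i, b⟩, c⟩ := ih k (ik (by omega))
        exact (c θ i b).2.2.2.1 fun d => by have := (b.1.2.2.1 d).1; have := (H k (ik (by omega)) θ i b).1; omega
    have g0 : θ0.g = some (q, M.tst n (q, (cf M n j).2)) := by
      have t : M.thr n q ≤ n := by unfold CM.thr; split_ifs <;> omega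
      obtain ⟨⟨θ, i, b⟩, c⟩ := ih _ (W (M.thr n q) (by omega))
      obtain ⟨e1, -, e3⟩ := H _ (W _ (by omega)) θ i b
      obtain ⟨⟨q', t⟩, d, o⟩ := Option.map_eq_some_iff.1 ((c θ i b).1.trans hq)
      obtain rfl : q' = q := o
      rw [← e3, d, b.1.2.2.2.2.2 _ _ d (by omega), (c θ i b).2.1]
      simp only [bt, CM.tst, ← decide_not, Nat.add_one_le_iff, not_lt]
    intro k a
    obtain ⟨⟨θ, i, b⟩, c⟩ := ih k a
    obtain ⟨e1, e2, e3⟩ := H k a θ i b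
    obtain ⟨-, c2, c3, c4⟩ := c θ i b
    have f1 : ¬ θ.f 1 := fun d => by simp [b.1.2.2.2.2.1 d, g0] at e3
    refine (nb (k' := k) (j' := j + 1) 1 b f1 (by simp [mv, ox, oy]; ring)).imp_right fun d θ' i' f => ?_
    have := cl f1 (d θ' i' f)
    simp only [dt, Fin.reduceAdd, Matrix.cons_val, Sum.inr.injEq, Prod.mk.injEq] at this
    obtain ⟨-, ⟨d1, d2, d3, d4⟩, -⟩ := this
    rw [d1, d2, d3, d4, e3, g0, cf, hq]
    refine ⟨rfl, nw_bt M (e3.trans g0) e2 c2 ?_, c3, c4⟩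
    by_cases l : θ.f 0
    · obtain ⟨-, l1, l2⟩ := b.1.2.2.1 l
      funext r
      have := congrFun (l1.symm.trans c2) r
      simp only [l2, bt, Bool.false_eq, decide_eq_false_iff_not] at *
      omega
    · obtain ⟨⟨θ1, i1, l1⟩, l2⟩ := nr b l
      exact (l2 _ _ l1).2.1.2.2.1.symm.trans ((ih _ (c4.1 l)).2 _ _ l1).2.1

theorem ray' {p τ} (h : Pl p τ) (hc : ∀ p τ, Pl p τ → τ.1 2 = 0 → τ.1 3 ≠ 0) :
    (∀ j : ℕ, ∃ τ, Pl (p.1, p.2 - (3 * K + 4) * j) τ) ∨ ∀ j : ℕ, ∃ τ, Pl (p.1 - (3 * K + 4) * j, p.2) τ := by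
  have st : ∀ {x τ} s t, Pl x τ → τ.1 s ≠ 0 → s = 2 ∧ t = 3 ∨ s = 3 ∧ t = 2 → ∃ τ', Pl (mv K x s) τ' ∧ (τ.1 t = 0 → τ'.1 t = 0) := fun s t a b c => by
    obtain ⟨τ', d, f⟩ := hN _ _ s a b
    obtain ⟨θ, i, -, g, -⟩ := hA _ _ a
    obtain ⟨θ', i', -, g', -⟩ := hA _ _ d
    refine ⟨τ', d, ?_⟩
    rw [g, g'] at f ⊢
    rw [g] at b
    have := mt col_zero.2 (f.trans_ne b)
    simp only [col, mt col_zero.2 b, this, Bool.false_eq_true, if_false, add_left_inj, Nat.pair_eq_pair, he.eq_iff] at f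
    obtain ⟨rfl, rfl⟩ | ⟨rfl, rfl⟩ := c <;> simp [dt] at f <;> simp [col_zero, f]
  have m2 : ∀ (x y : ℤ) (j : ℕ), mv K (x - (3 * K + 4) * j, y) 2 = (x - (3 * K + 4) * (j + 1 : ℕ), y) := fun x y j => by simp [mv, ox, oy]; ring
  have m3 : ∀ (x y : ℤ) (j : ℕ), mv K (x, y - (3 * K + 4) * j) 3 = (x, y - (3 * K + 4) * (j + 1 : ℕ)) := fun x y j => by simp [mv, ox, oy]; ring
  by_contra! k
  obtain ⟨⟨j, a⟩, i, b⟩ := k
  obtain ⟨j, σ, a1, a2⟩ : ∃ (j : ℕ) (σ : _), Pl (p.1, p.2 - (3 * K + 4) * j) σ ∧ σ.1 3 = 0 := by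
    by_contra! l
    induction j with
    | zero => exact a τ (by simpa)
    | succ j ih => exact ih fun σ c => (st 3 2 c (l _ _ c) (by simp)).elim fun σ' d => a σ' (m3 .. ▸ d.1)
  obtain ⟨i, υ, b1, b2⟩ : ∃ (j : ℕ) (σ : _), Pl (p.1 - (3 * K + 4) * j, p.2) σ ∧ σ.1 2 = 0 := by
    by_contra! l
    induction i with
    | zero => exact b τ (by simpa)
    | succ j ih => exact ih fun σ c => (st 2 3 c (l _ _ c) (by simp)).elim fun σ' d => b σ' (m2 .. ▸ d.1)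
  obtain ⟨σ, c1, c2⟩ : ∃ σ, Pl (p.1 - (3 * K + 4) * i, p.2 - (3 * K + 4) * j) σ ∧ σ.1 3 = 0 := by
    clear b1
    induction i with
    | zero => exact ⟨σ, by simpa, a2⟩
    | succ i ih => exact ih.elim fun σ c => (st 2 3 c.1 (fun d => hc _ _ c.1 d c.2) (by simp)).imp fun σ' d => ⟨m2 .. ▸ d.1, d.2 c.2⟩
  obtain ⟨υ, d1, d2⟩ : ∃ σ, Pl (p.1 - (3 * K + 4) * i, p.2 - (3 * K + 4) * j) σ ∧ σ.1 2 = 0 := by
    clear a1 c1
    induction j with
    | zero => exact ⟨υ, by simpa, b2⟩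
    | succ j ih => exact ih.elim fun σ c => (st 3 2 c.1 (hc _ _ c.1 c.2) (by simp)).imp fun σ' d => ⟨m3 .. ▸ d.1, d.2 c.2⟩
  exact hc _ _ d1 d2 (hF _ _ _ c1 d1 ▸ c2)

end

end Pool.Agent.H.MP_74d590_lc
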