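import Mathlib
import Pool.Agent.H.MP_74d590_lc.W

namespace Pool.Agent.H.MP_74d590_lc

open Pool.Agent.Lib.helper21.Mach Pool.Agent.Lib.helper21.While

variable {Q : Type} (M : CM Q) (e : La Q → ℕ) (n : ℕ)

def th (N k j R T : ℕ) : Th Q := ⟨(cf M n j).1.map fun q => (q, M.tst n (q, (cf M n j).2)), bt M (cf M n j).2 k, bt M (cf M n j).2 (k + 1),
  bt M (cf M n j).2 (k + 2), ![decide (R < 2 * N), decide (T < 2 * N), decide (k = 0), decide (j = 0)]⟩

def mkT (N k j R T : ℕ) : Ty := (col M e n (th M n N k j R T) (min k (n + 1)), if R < 2 * N then R else N, if T < 2 * N then T else N)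

def Pc (N : ℕ) (v : ℤ × ℤ × ℤ × ℤ) (τ : Ty) : Prop :=
  ∃ k j R T : ℕ, v = (-((N * k : ℕ) : ℤ), -((N * j : ℕ) : ℤ), (R : ℤ), (T : ℤ)) ∧ N ≤ R ∧ N ≤ T ∧ τ = mkT M e n N k j R T

variable {M e n}

theorem hz {N k j R T} (R') (h : ¬ R < 2 * N) : (mkT M e n N (k + 1) j R' T).1 2 = (mkT M e n N k j R T).1 0 := by
  simp [mkT, col, th, dt, h]

theorem vt {N k j R T} (T') (h : ¬ T < 2 * N) : (mkT M e n N k (j + 1) R T').1 3 = (mkT M e n N k j R T).1 1 := by
  have : nw M (th M n N k j R T) = bt M (cf M n (j + 1)).2 (k + 1) ∧ (th M n N k j R T).g.bind (fun x => M.nxt x.1 x.2) = (cf M n (j + 1)).1 := by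
    rw [cf]
    cases i : (cf M n j).1
    · exact ⟨by funext; simp [nw, th, i], by simp [th, i]⟩
    · exact ⟨nw_bt M (by simp [th, i]) rfl rfl rfl, by simp [th, i]⟩
  simp only [mkT, col, dt, this]
  simp [th, h, Function.comp_def]

theorem one {N L R : ℕ} (h : N ≤ L + R) (k : 0 < R) (l : 0 < N) : ∃ c a, L = N * c + a ∧ N ≤ R + a ∧ a < if R + a < 2 * N then R + a else N := by
  have a := Nat.div_add_mod L N
  have b := Nat.mod_lt L l
  by_cases i : N ≤ R + L % N
  · exact ⟨_, _, a.symm, i, by split_ifs <;> omega⟩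
  · obtain j | ⟨c, j⟩ := Nat.eq_zero_or_eq_succ_pred (L / N) |>.imp_right fun j => (⟨_, j⟩ : ∃ c, L / N = c + 1)
    · simp only [j] at a; omega
    · rw [j, mul_add] at a
      exact ⟨c, L % N + N, by omega, by omega, by split_ifs <;> omega⟩

theorem uni {N c c' R R' a a' : ℕ} (h : N * c + a = N * c' + a') (k : R + a' = R' + a) (l : N ≤ R) (l' : N ≤ R')
    (m : a < if R < 2 * N then R else N) (m' : a' < if R' < 2 * N then R' else N) : c = c' := by
  obtain i | i | i := lt_trichotomy c c'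
  · have := Nat.mul_le_mul_left N (Nat.succ_le_of_lt i)
    rw [Nat.mul_succ] at this
    split_ifs at m <;> omega
  · exact i
  · have := Nat.mul_le_mul_left N (Nat.succ_le_of_lt i)
    rw [Nat.mul_succ] at this
    split_ifs at m' <;> omega

theorem fill {H K : ℕ} (hH : (cf M n H).1 = none) {v : ℤ × ℤ → ℤ × ℤ × ℤ × ℤ}
    (h0 : ∀ u, ((v u).1 ≤ 0 ∧ 0 < (v u).2.2.1 ∧ (v u).1 + ((3 * K + 4) * (H + n + 3) : ℕ) ≤ (v u).2.2.1) ∧
      (v u).2.1 ≤ 0 ∧ 0 < (v u).2.2.2 ∧ (v u).2.1 + ((3 * K + 4) * (H + n + 3) : ℕ) ≤ (v u).2.2.2)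
    (hs : ∀ u x y, (v u).1 ≤ x → x < (v u).2.2.1 → (v u).2.1 ≤ y → y < (v u).2.2.2 →
      v (u.1 + x, u.2 + y) = ((v u).1 - x, (v u).2.1 - y, (v u).2.2.1 - x, (v u).2.2.2 - y)) :
    Til (Bd K) (fun p => Pc M e n (3 * K + 4) (v (p.1 + (3 * K + 4), p.2 + (3 * K + 4)))) ∧
      Nb K (fun p => Pc M e n (3 * K + 4) (v (p.1 + (3 * K + 4), p.2 + (3 * K + 4)))) ∧
      ∀ u τ, Pc M e n (3 * K + 4) (v u) τ → Al M e n (3 * K + 4) τ := by
  obtain ⟨N, hN⟩ : ∃ N, N = 3 * K + 4 := ⟨_, rfl⟩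
  have hD : N * (H + n + 3) = N * (H + n + 1) + 2 * N := by ring
  rw [← hN] at h0 ⊢
  refine ⟨⟨fun u => ?_, ?_⟩, ?_, ?_⟩
  · obtain ⟨⟨a1, a2, a3⟩, b1, b2, b3⟩ := h0 u
    obtain ⟨k, x, c1, c2, c3⟩ := one (N := N) (L := (-(v u).1).toNat) (R := (v u).2.2.1.toNat) (by omega) (by omega) (by omega)
    obtain ⟨j, y, d1, d2, d3⟩ := one (N := N) (L := (-(v u).2.1).toNat) (R := (v u).2.2.2.toNat) (by omega) (by omega) (by omega)
    refine ⟨(u.1 - x - N, u.2 - y - N), _, ⟨k, j, _, _, ?_, c2, d2, rfl⟩, N + x, N + y, by simp only; omega, by simp only; omega, by simp only [Bd, mkT]; omega⟩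
    refine (congrArg v (by simp only [Prod.mk.injEq]; omega)).trans ((hs u (-x) (-y) (by omega) (by omega) (by omega) (by omega)).trans ?_)
    simp only [Prod.mk.injEq]
    omega
  · rintro u p _ p' _ ⟨k, j, R, T, a, a1, a2, rfl⟩ ⟨k', j', R', T', a', a1', a2', rfl⟩ ⟨x, y, b1, b2, b⟩ ⟨x', y', b1', b2', b'⟩
    simp only [Bd, mkT, ← hN] at b b'
    have c := hs (p.1 + (3 * K + 4), p.2 + (3 * K + 4)) (x - N) (y - N)
    have c' := hs (p'.1 + (3 * K + 4), p'.2 + (3 * K + 4)) (x' - N) (y' - N)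
    rw [a, show (p.1 + (3 * K + 4) + (x - N), p.2 + (3 * K + 4) + (y - N)) = u from Prod.ext (by simp only; omega) (by simp only; omega)] at c
    rw [a', show (p'.1 + (3 * K + 4) + (x' - N), p'.2 + (3 * K + 4) + (y' - N)) = u from Prod.ext (by simp only; omega) (by simp only; omega)] at c'
    have := (c (by simp only; omega) (by split_ifs at b <;> simp only <;> omega) (by simp only; omega) (by split_ifs at b <;> simp only <;> omega)).symm.trans
      (c' (by simp only; omega) (by split_ifs at b' <;> simp only <;> omega) (by simp only; omega) (by split_ifs at b' <;> simp only <;> omega))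
    simp only [Prod.mk.injEq] at this
    obtain rfl := uni (c := k) (c' := k') (a := x - N) (a' := x' - N) (by omega) (by omega) a1 a1' (by omega) (by omega)
    obtain rfl := uni (c := j) (c' := j') (a := y - N) (a' := y' - N) (by omega) (by omega) a2 a2' (by omega) (by omega)
    obtain rfl : R = R' := by omega
    obtain rfl : T = T' := by omega
    exact ⟨Prod.ext (by omega) (by omega), rfl⟩
  · rintro p _ s ⟨k, j, R, T, a, a1, a2, rfl⟩ b
    have c := mt col_zero.2 b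
    have d : ∀ x y : ℤ, -(N * k : ℕ) ≤ x → x < R → -(N * j : ℕ) ≤ y → y < T → x = ox N s - N → y = oy N s - N →
        v ((mv K p s).1 + (3 * K + 4), (mv K p s).2 + (3 * K + 4)) = (-(N * k : ℕ) - x, -(N * j : ℕ) - y, R - x, T - y) := fun x y c1 c2 c3 c4 c5 c6 => by
      have := hs (p.1 + (3 * K + 4), p.2 + (3 * K + 4)) x y
      rw [a] at this
      exact (congrArg v (by simp only [mv, ← hN, Prod.mk.injEq]; omega)).trans (this c1 c2 c3 c4)
    fin_cases s <;> simp [th, -not_lt] at c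
    · exact ⟨_, ⟨k + 1, j, R - N, T, (d N 0 (by omega) (by omega) (by omega) (by omega) (by simp [ox]; omega) (by simp [oy])).trans
        (by rw [mul_add]; simp only [Prod.mk.injEq]; omega), by omega, a2, rfl⟩, hz _ c.not_gt⟩
    · exact ⟨_, ⟨k, j + 1, R, T - N, (d 0 N (by omega) (by omega) (by omega) (by omega) (by simp [ox]) (by simp [oy]; omega)).trans
        (by rw [mul_add]; simp only [Prod.mk.injEq]; omega), a1, by omega, rfl⟩, vt _ c.not_gt⟩
    · obtain ⟨k, rfl⟩ := Nat.exists_eq_add_one_of_ne_zero c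
      rw [mul_add] at d
      exact ⟨_, ⟨k, j, R + N, T, (d (-N) 0 (by omega) (by omega) (by omega) (by omega) (by simp [ox]) (by simp [oy])).trans
        (by simp only [Prod.mk.injEq]; omega), by omega, a2, rfl⟩, (hz _ (by omega)).symm⟩
    · obtain ⟨j, rfl⟩ := Nat.exists_eq_add_one_of_ne_zero c
      rw [mul_add] at d
      exact ⟨_, ⟨k, j, R, T + N, (d 0 (-N) (by omega) (by omega) (by omega) (by omega) (by simp [ox]) (by simp [oy])).trans
        (by simp only [Prod.mk.injEq]; omega), a1, by omega, rfl⟩, (vt _ (by omega)).symm⟩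
  rintro u _ ⟨k, j, R, T, a, a1, a2, rfl⟩
  have b := h0 u
  simp only [a] at b
  have c1 : ∀ j, cf M n (H + j) = cf M n H := fun j => by
    induction j with
    | zero => rfl
    | succ j ih => rw [← add_assoc, cf, ih, hH]
  have c2 : ∀ j r, (cf M n j).2 r ≤ j := fun j => by
    induction j with
    | zero => exact fun _ => le_rfl
    | succ j ih =>
      intro r
      have := ih r
      rw [cf]
      cases (cf M n j).1
      · exact this.trans (Nat.le_succ j)
      · dsimp only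
        rcases M.eff _ _ with _ | _ | _ <;> simp only [app, Function.update_apply] <;> try split_ifs with i <;> try rw [← i]
        all_goals omega
  have c3 : ∀ r, (cf M n j).2 r ≤ H := fun r => (le_total j H).elim (c2 j r).trans fun i => by
    obtain ⟨j, rfl⟩ := Nat.exists_eq_add_of_le i
    exact c1 j ▸ c2 H r
  refine ⟨_, _, ⟨min_le_right .., ?_, fun i => ?_, ?_, fun i => ?_, fun q t i l => ?_⟩, rfl, by simp only [mkT]; split_ifs <;> omega⟩
  · simp only [th]
    rintro i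
    obtain rfl : k = 0 := by simpa using i
    exact ⟨by simp, by funext; simp [bt]⟩
  · have : H + n + 1 < k := Nat.lt_of_mul_lt_mul_left (a := N) (by simp [th] at i; omega)
    refine ⟨by omega, funext fun p => ?_, funext fun p => ?_⟩ <;> have := c3 (M.reg p) <;> simp only [th, bt, decide_eq_false_iff_not] <;> omega
  · simp only [th]
    rintro i
    obtain rfl : j = 0 := by simpa using i
    exact ⟨rfl, by funext; simp [bt, cf]⟩
  · have : H + n + 1 < j := Nat.lt_of_mul_lt_mul_left (a := N) (by simp [th] at i; omega)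
    obtain ⟨j, rfl⟩ := Nat.exists_eq_add_of_le (show H ≤ j by omega)
    simp [th, c1, hH]
  · have : M.thr n q ≤ n := by unfold CM.thr; split_ifs <;> omega
    obtain rfl : k = M.thr n q := by omega
    obtain ⟨_, -, ⟨⟩⟩ := Option.map_eq_some_iff.1 i
    simp only [th, bt, CM.tst, ← decide_not, Nat.add_one_le_iff, not_lt]

theorem blank (K : ℕ) : ∃ Pl, Til (Bd K) Pl ∧ Nb K Pl ∧ ∀ p τ, Pl p τ → Al M e n (3 * K + 4) τ := by
  obtain ⟨N, hN⟩ : ∃ N, N = 3 * K + 4 := ⟨_, rfl⟩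
  let θ : Th Q := ⟨none, fun _ => false, fun _ => false, fun _ => false, fun _ => false⟩
  refine ⟨fun p τ => (N : ℤ) ∣ p.1 ∧ (N : ℤ) ∣ p.2 ∧ τ = (col M e n θ (n + 1), N, N), ⟨fun u => ?_, ?_⟩, ?_, ?_⟩
  · have := Int.emod_lt_of_pos u.1 (b := N) (by omega)
    have := Int.emod_lt_of_pos u.2 (b := N) (by omega)
    have := Int.emod_nonneg u.1 (b := N) (by omega)
    have := Int.emod_nonneg u.2 (b := N) (by omega)
    exact ⟨(u.1 - u.1 % N - N, u.2 - u.2 % N - N), _, ⟨(Int.dvd_self_sub_emod).sub dvd_rfl, (Int.dvd_self_sub_emod).sub dvd_rfl, rfl⟩,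
      N + (u.1 % N).toNat, N + (u.2 % N).toNat, by simp only; omega, by simp only; omega, by simp only [Bd]; omega⟩
  · rintro u p _ p' _ ⟨a, b, rfl⟩ ⟨a', b', rfl⟩ ⟨x, y, c1, c2, c⟩ ⟨x', y', c1', c2', c'⟩
    simp only [Bd] at c c'
    exact ⟨Prod.ext (sub_eq_zero.1 (Int.eq_zero_of_abs_lt_dvd (a.sub a') (by rw [abs_lt]; omega)))
      (sub_eq_zero.1 (Int.eq_zero_of_abs_lt_dvd (b.sub b') (by rw [abs_lt]; omega))), rfl⟩
  · rintro p _ s ⟨a, b, rfl⟩ -
    have c : (3 * K + 4 : ℤ) = N := by omega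
    refine ⟨_, ⟨?_, ?_, rfl⟩, by fin_cases s <;> simp [col, dt, θ] <;> rfl⟩ <;> simp only [mv, ← hN, c] <;> refine .sub (.add ‹_› ?_) dvd_rfl <;>
      fin_cases s <;> simp [ox, oy]
  · rintro p _ ⟨-, -, rfl⟩
    exact ⟨θ, n + 1, by simp [Ok, θ], rfl, by simp only; omega⟩

end Pool.Agent.H.MP_74d590_lc
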