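import Mathlib

namespace Pool.Agent.H.MP_74d590_lc

open Filter Topology
open scoped Classical

variable {ι X : Type} [Fintype ι] [TopologicalSpace X] [AddAction (ι → ℤ) X] [ContinuousConstVAdd (ι → ℤ) X]

omit [Fintype ι] in
theorem greedy {Y : Type} {B : Set (ι → ℤ)} (hB : B.Finite) {κ : X → ℕ} (hi : IsLocallyConstant κ) (Φ : ((ι → ℤ) → Option Y) → Y) :
    ∃ f : X → Y, IsLocallyConstant f ∧ ∀ x, f x = Φ fun g => if g ∈ B ∧ κ (g +ᵥ x) < κ x then some (f (g +ᵥ x)) else none := by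
  let f : X → Y := (measure κ).wf.fix fun x r => Φ fun g => if h : g ∈ B ∧ κ (g +ᵥ x) < κ x then some (r (g +ᵥ x) h.2) else none
  have hf : ∀ x, f x = Φ fun g => if g ∈ B ∧ κ (g +ᵥ x) < κ x then some (f (g +ᵥ x)) else none := fun x => WellFounded.fix_eq ..
  refine ⟨f, (IsLocallyConstant.iff_eventually_eq _).2 fun x => ?_, hf⟩
  induction x using (measure κ).wf.induction with
  | _ x ih =>
    have : ∀ᶠ y in 𝓝 x, ∀ g ∈ B, κ (g +ᵥ y) = κ (g +ᵥ x) ∧ (κ (g +ᵥ x) < κ x → f (g +ᵥ y) = f (g +ᵥ x)) := (eventually_all_finite hB).2 fun g _ =>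
      ((hi.comp_continuous (continuous_const_vadd g)).eventually_eq x).and (eventually_imp_distrib_left.2 fun h =>
        (continuous_const_vadd g).continuousAt.eventually (ih _ h))
    filter_upwards [this, hi.eventually_eq x] with y a b
    rw [hf, hf x]
    refine congrArg Φ (funext fun g => ?_)
    by_cases h : g ∈ B ∧ κ (g +ᵥ x) < κ x
    · rw [if_pos h, if_pos ⟨h.1, by rw [(a g h.1).1, b]; exact h.2⟩, (a g h.1).2 h.2]
    · rw [if_neg h, if_neg fun k => h ⟨k.1, by rw [← (a g k.1).1, ← b]; exact k.2⟩]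

theorem box_fin (L : ℤ) : {g : ι → ℤ | ∀ i, |g i| ≤ L}.Finite :=
  (Set.Finite.pi' fun _ : ι => Set.finite_Icc (-L) L).subset fun _ h i => abs_le.1 (h i)

theorem marks (D : ℕ) (h : ∀ L : ℤ, ∃ κ : X → ℕ, IsLocallyConstant κ ∧ ∀ x (g : ι → ℤ), g ≠ 0 → (∀ i, |g i| ≤ L) → κ (g +ᵥ x) ≠ κ x) :
    ∃ (d : ℤ) (κ : X → ℕ) (f : X → Option (ι → Bool → ℤ)), IsLocallyConstant κ ∧ IsLocallyConstant f ∧
      (∀ x (g : ι → ℤ), g ≠ 0 → (∀ i, |g i| ≤ 8 * d) → κ (g +ᵥ x) ≠ κ x) ∧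
      (∀ x φ, f x = some φ → ∀ i, -(2 * d) ≤ φ i false ∧ φ i false ≤ -d ∧ d ≤ φ i true ∧ φ i true ≤ 2 * d) ∧
      (∀ x, ∃ (g : ι → ℤ) (φ : _), f (g +ᵥ x) = some φ ∧ ∀ i, |g i| < d) ∧
      ∀ x (g : ι → ℤ) φ φ', f x = some φ → f (g +ᵥ x) = some φ' → (∀ i, |g i| ≤ 8 * d) → ∀ i s s',
        φ i s = g i + φ' i s' ∨ (D : ℤ) ≤ |φ i s - (g i + φ' i s')| := by
  obtain ⟨K, hK⟩ : ∃ K, K = Fintype.card ((ι → Fin 17) × Bool) := ⟨_, rfl⟩
  obtain ⟨d, hd⟩ : ∃ d : ℤ, d = 2 * D * K + D + 1 := ⟨_, rfl⟩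
  have d0 : (D : ℤ) < d := by rw [hd]; nlinarith [Int.natCast_nonneg D, Int.natCast_nonneg K]
  obtain ⟨κ, k1, k2⟩ := h (8 * d)
  let Q := fun (e : (ι → ℤ) → Option (Option (ι → Bool → ℤ))) (φ : ι → Bool → ℤ) => ∀ i s, (d ≤ cond s (φ i s) (-φ i s) ∧ cond s (φ i s) (-φ i s) ≤ 2 * d) ∧
    ∀ g φ' s', e g = some (some φ') → (D : ℤ) ≤ |φ i s - (g i + φ' i s')|
  obtain ⟨f, f1, f2⟩ := greedy (box_fin (ι := ι) (8 * d)) k1 fun e =>
    if ∃ g φ, e g = some (some φ) ∧ ∀ i, |g i| < d then none else some (Classical.epsilon (Q e))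
  obtain ⟨E, f2, hE⟩ : ∃ E : X → (ι → ℤ) → Option (Option (ι → Bool → ℤ)), (∀ x, f x =
      if ∃ g φ, E x g = some (some φ) ∧ ∀ i, |g i| < d then none else some (Classical.epsilon (Q (E x)))) ∧
      ∀ x g o, E x g = some o ↔ (∀ i, |g i| ≤ 8 * d) ∧ κ (g +ᵥ x) < κ x ∧ f (g +ᵥ x) = o := ⟨_, f2, by simp [and_assoc]⟩
  have v : ∀ (g : ι → ℤ) (x : X), -g +ᵥ (g +ᵥ x) = x := neg_vadd_vadd
  have sp : ∀ x (g : ι → ℤ) φ φ', f x = some φ → f (g +ᵥ x) = some φ' → (∀ i, |g i| < d) → g = 0 := fun x g φ φ' a b c => by_contra fun n => by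
    have m : ∀ i, |g i| ≤ 8 * d := fun i => by have := c i; omega
    obtain l | l := (k2 x g n m).lt_or_gt
    · rw [f2, if_pos ⟨g, φ', (hE ..).2 ⟨m, l, b⟩, c⟩] at a
      cases a
    · rw [f2, if_pos ⟨-g, φ, (hE ..).2 ⟨by simpa using m, by rwa [v], by rwa [v]⟩, by simpa using c⟩] at b
      cases b
  have q : ∀ x φ, f x = some φ → Q (E x) φ := fun x φ a => by
    rw [f2] at a
    split_ifs at a
    obtain rfl := Option.some.inj a
    refine Classical.epsilon_spec ?_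
    suffices ∀ i s, ∃ c : ℤ, (d ≤ cond s c (-c) ∧ cond s c (-c) ≤ 2 * d) ∧ ∀ (g : ι → ℤ) (φ' : ι → Bool → ℤ) s', (∀ i, |g i| ≤ 8 * d) →
        f (g +ᵥ x) = some φ' → (D : ℤ) ≤ |c - (g i + φ' i s')| by
      choose φ a b using this
      exact ⟨φ, fun i s => ⟨a i s, fun g φ' s' e => b i s g φ' s' ((hE ..).1 e).1 ((hE ..).1 e).2.2⟩⟩
    intro i s
    by_contra! n
    have : ∀ k : Fin (K + 1), ∃ (g : ι → ℤ) (φ' : ι → Bool → ℤ) (s' : Bool), (∀ i, |g i| ≤ 8 * d) ∧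
        f (g +ᵥ x) = some φ' ∧ |cond s (d + 2 * D * k) (-(d + 2 * D * k)) - (g i + φ' i s')| < D := fun k => n _ (by
      have : (2 * D * k : ℤ) ≤ 2 * D * K := by gcongr; exact_mod_cast k.is_le
      have : (0 : ℤ) ≤ 2 * D * k := by positivity
      cases s <;> simp <;> omega)
    choose g φ s' a b c using this
    obtain ⟨k, l, m, e⟩ := Fintype.exists_ne_map_eq_of_card_lt (fun k => ((fun j => ⟨((g k j + 8 * d) / d).toNat, by
      have := abs_le.1 (a k j)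
      have : (g k j + 8 * d) / d < 17 := Int.ediv_lt_of_lt_mul (by omega) (by omega)
      omega⟩ : ι → Fin 17), s' k)) (by simp [hK])
    obtain ⟨e, e'⟩ := Prod.mk.inj e
    have : g k = g l := sub_eq_zero.1 (sp (g l +ᵥ x) _ _ _ (b l) (by rw [vadd_vadd, sub_add_cancel, b k]) fun j => by
      have e := congrArg Fin.val (congrFun e j)
      have := abs_le.1 (a k j)
      have := abs_le.1 (a l j)
      have := Int.ediv_nonneg (a := g k j + 8 * d) (b := d) (by omega) (by omega)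
      have := Int.ediv_nonneg (a := g l j + 8 * d) (b := d) (by omega) (by omega)
      have e : (g k j + 8 * d) / d = (g l j + 8 * d) / d := by simp only at e; omega
      have := Int.emod_lt_of_pos (g k j + 8 * d) (b := d) (by omega)
      have := Int.emod_lt_of_pos (g l j + 8 * d) (b := d) (by omega)
      have := Int.emod_nonneg (g k j + 8 * d) (b := d) (by omega)
      have := Int.emod_nonneg (g l j + 8 * d) (b := d) (by omega)
      have := Int.emod_add_mul_ediv (g k j + 8 * d) d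
      have := Int.emod_add_mul_ediv (g l j + 8 * d) d
      rw [← e] at this
      rw [Pi.sub_apply, abs_lt]
      omega)
    have c1 := abs_lt.1 (c k)
    have c2 := abs_lt.1 (c l)
    obtain e : φ k = φ l := Option.some.inj ((b k).symm.trans (this ▸ b l))
    rw [this, e, e'] at c1
    have m : (k : ℤ) + 1 ≤ l ∨ (l : ℤ) + 1 ≤ k := by have := Fin.val_ne_of_ne m; omega
    obtain m | m := m <;> cases s <;> simp only [cond] at c1 c2 <;> nlinarith [Int.natCast_nonneg D]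
  refine ⟨d, κ, f, k1, f1, k2, fun x φ a i => ?_, fun x => ?_, fun x g φ φ' a b c i s s' => ?_⟩
  · have := (q x φ a i false).1
    have := (q x φ a i true).1
    simp only [cond] at *
    omega
  · cases a : f x
    · rw [f2] at a
      split_ifs at a with l
      obtain ⟨g, φ, l, m⟩ := l
      exact ⟨g, φ, ((hE ..).1 l).2.2, m⟩
    · exact ⟨0, _, by rwa [zero_vadd], fun _ => by simp; omega⟩
  obtain rfl | n := eq_or_ne g 0
  · obtain rfl : φ = φ' := Option.some.inj (a.symm.trans (by rwa [zero_vadd] at b))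
    have := (q x φ a i false).1
    have := (q x φ a i true).1
    cases s <;> cases s' <;> simp only [cond, Pi.zero_apply, le_abs] at * <;> omega
  obtain l | l := (k2 x g n c).lt_or_gt
  · exact .inr ((q x φ a i s).2 g φ' s' ((hE ..).2 ⟨c, l, b⟩))
  · have := (q _ φ' b i s').2 (-g) φ s ((hE ..).2 ⟨by simpa using c, by rwa [v], by rwa [v]⟩)
    simp only [Pi.neg_apply, le_abs] at *
    omega

theorem boxes (D : ℕ) (h : ∀ L : ℤ, ∃ κ : X → ℕ, IsLocallyConstant κ ∧ ∀ x (g : ι → ℤ), g ≠ 0 → (∀ i, |g i| ≤ L) → κ (g +ᵥ x) ≠ κ x) :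
    ∃ ρ : X → (ι → ℤ) × (ι → ℤ), IsLocallyConstant ρ ∧ ∀ x, (∀ i, (ρ x).1 i ≤ 0 ∧ 0 < (ρ x).2 i ∧ (ρ x).1 i + D ≤ (ρ x).2 i) ∧
      ∀ h : ι → ℤ, (∀ i, (ρ x).1 i ≤ h i ∧ h i < (ρ x).2 i) → ρ (h +ᵥ x) = ((ρ x).1 - h, (ρ x).2 - h) := by
  obtain ⟨d, κ, f, k1, f1, k2, p1, p2, p3⟩ := marks D h
  let In := fun (x : X) (g : ι → ℤ) => ∃ φ, f (g +ᵥ x) = some φ ∧ ∀ i, g i + φ i false ≤ 0 ∧ 0 < g i + φ i true
  let Ow := fun (x : X) (m : ι → ℤ) => In x m ∧ ∀ g, In x g → κ (m +ᵥ x) ≤ κ (g +ᵥ x)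
  let Fc := fun (y : X) i c => ∃ (g : ι → ℤ) (φ : _) (s : _), (∀ j, |g j| ≤ 4 * d) ∧ f (g +ᵥ y) = some φ ∧ c = g i + φ i s
  let At := fun (x : X) (r : (ι → ℤ) × (ι → ℤ)) => ∃ m, Ow x m ∧ ∀ i, Fc (m +ᵥ x) i (r.1 i - m i) ∧ Fc (m +ᵥ x) i (r.2 i - m i) ∧ r.1 i ≤ 0 ∧ 0 < r.2 i ∧
    ∀ c, Fc (m +ᵥ x) i c → c + m i ≤ r.1 i ∨ r.2 i ≤ c + m i
  have i0 : ∀ {x g}, In x g → ∀ i, |g i| ≤ 2 * d := fun ⟨φ, a, b⟩ i => by have := p1 _ φ a i; have := b i; rw [abs_le]; omega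
  have i1 : ∀ {m g : ι → ℤ} {u : ι → ℤ}, (∀ i, |m i - u i| ≤ 2 * d) → (∀ i, |g i - u i| ≤ 2 * d) → ∀ i, |(g - m) i| ≤ 4 * d := fun a b i => by
    have := a i; have := b i; simp only [Pi.sub_apply, abs_le] at *; omega
  have vv : ∀ (g h : ι → ℤ) (x : X), (g - h) +ᵥ (h +ᵥ x) = g +ᵥ x := fun g h x => by rw [vadd_vadd, sub_add_cancel]
  have ex : ∀ x, ∃ r, At x r := fun x => by
    obtain ⟨g, φ, a, b⟩ := p2 x
    obtain ⟨m, ⟨ψ, c, e⟩, l⟩ := (measure fun g : ι → ℤ => κ (g +ᵥ x)).wf.has_min {g | In x g}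
      ⟨g, φ, a, fun i => by have := p1 _ φ a i; have := abs_lt.1 (b i); omega⟩
    have z : ∀ i s, Fc (m +ᵥ x) i (m i + ψ i s - m i) := fun i s =>
      ⟨0, ψ, s, fun j => by have := p1 _ ψ c j; have := e j; simp; omega, by rwa [zero_vadd], by simp⟩
    choose lo l1 l2 using fun i => Int.exists_greatest_of_bdd (P := fun c => Fc (m +ᵥ x) i (c - m i) ∧ c ≤ 0) ⟨0, fun _ h => h.2⟩ ⟨_, z i false, (e i).1⟩
    choose hi h1 h2 using fun i => Int.exists_least_of_bdd (P := fun c => Fc (m +ᵥ x) i (c - m i) ∧ 0 < c) ⟨0, fun _ h => h.2.le⟩ ⟨_, z i true, (e i).2⟩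
    exact ⟨(lo, hi), m, ⟨⟨ψ, c, e⟩, fun g k => not_lt.1 (l g k)⟩, fun i => ⟨(l1 i).1, (h1 i).1, (l1 i).2, (h1 i).2, fun c k =>
      (le_or_gt (c + m i) 0).imp (fun j => l2 i _ ⟨by simpa, j⟩) fun j => h2 i _ ⟨by simpa, j⟩⟩⟩
  have un : ∀ {x r r'}, At x r → At x r' → r = r' := fun {x r r'} ⟨m, a, b⟩ ⟨m', a', b'⟩ => by
    obtain rfl : m = m' := sub_eq_zero.1 (by_contra fun n => k2 (m' +ᵥ x) _ n (fun i => by
      have := i1 (u := 0) (by simpa using i0 a'.1) (by simpa using i0 a.1) i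
      have := abs_nonneg ((m - m') i)
      omega) (by rw [vv]; exact (a.2 _ a'.1).antisymm (a'.2 _ a.1)))
    refine Prod.ext (funext fun i => ?_) (funext fun i => ?_) <;> obtain ⟨c1, c2, c3, c4, c5⟩ := b i <;> obtain ⟨e1, e2, e3, e4, e5⟩ := b' i <;>
      have := c5 _ e1 <;> have := c5 _ e2 <;> have := e5 _ c1 <;> have := e5 _ c2 <;> omega
  choose ρ hρ using ex
  refine ⟨ρ, (IsLocallyConstant.iff_eventually_eq _).2 fun x => ?_, fun x => ⟨fun i => ?_, fun h k => un (hρ _) ?_⟩⟩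
  · filter_upwards [(eventually_all_finite (box_fin (ι := ι) (6 * d))).2 fun g _ => ((f1.comp_continuous (continuous_const_vadd g)).eventually_eq x).and
      ((k1.comp_continuous (continuous_const_vadd g)).eventually_eq x)] with y e
    simp only [Function.comp, Set.mem_ofPred_eq] at e
    have e0 : ∀ {z g}, In z g → ∀ i, |g i| ≤ 6 * d := fun a i => by have := i0 a i; have := abs_nonneg (_ : ℤ) |>.trans this; omega
    have e1 : ∀ g, In y g ↔ In x g := fun g => ⟨fun ⟨φ, a, b⟩ => ⟨φ, (e g (e0 ⟨φ, a, b⟩)).1 ▸ a, b⟩, fun ⟨φ, a, b⟩ => ⟨φ, (e g (e0 ⟨φ, a, b⟩)).1 ▸ a, b⟩⟩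
    obtain ⟨m, a, b⟩ := hρ x
    have e2 : ∀ i c, Fc (m +ᵥ y) i c ↔ Fc (m +ᵥ x) i c := fun i c => exists₃_congr fun g φ s => and_congr_right fun k => by
      rw [vadd_vadd, vadd_vadd, (e _ fun j => by have := k j; have := i0 a.1 j; simp only [Pi.add_apply, abs_le] at *; omega).1]
    exact un (hρ y) ⟨m, ⟨(e1 m).2 a.1, fun g k => by rw [(e m (e0 a.1)).2, (e g (e0 k)).2]; exact a.2 g ((e1 g).1 k)⟩, by simpa only [e2] using b⟩
  · obtain ⟨m, a, b⟩ := hρ x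
    obtain ⟨⟨g, φ, s, c1, c2, c3⟩, ⟨g', φ', s', e1, e2, e3⟩, l1, l2, -⟩ := b i
    have := p3 _ (g' - g) φ φ' c2 (by rwa [vv]) (fun j => by have := c1 j; have := e1 j; simp only [Pi.sub_apply, abs_le] at *; omega) i s s'
    simp only [Pi.sub_apply, le_abs] at this
    omega
  obtain ⟨m, a, b⟩ := hρ x
  have e : ∀ (g : ι → ℤ) φ, f (g +ᵥ x) = some φ → (∀ j, |(g - m) j| ≤ 4 * d) → ∀ i s, g i + φ i s ≤ (ρ x).1 i ∨ (ρ x).2 i ≤ g i + φ i s := fun g φ c l i s => by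
    have := (b i).2.2.2.2 _ ⟨g - m, φ, s, l, by rwa [vv], rfl⟩
    simp only [Pi.sub_apply] at this
    omega
  have e1 : ∀ g, In x g → In (h +ᵥ x) (g - h) := fun g ⟨φ, c, l⟩ => ⟨φ, by rwa [vv], fun i => by
    have o := e g φ c (i1 (u := 0) (by simpa using i0 a.1) (by simpa using i0 ⟨φ, c, l⟩)) i
    have := o false; have := o true; have := l i; have := k i; have := (b i).2.2.1; have := (b i).2.2.2.1
    simp only [Pi.sub_apply]
    omega⟩
  refine ⟨m - h, ⟨e1 m a.1, fun g ⟨φ, c, l⟩ => ?_⟩, fun i => ?_⟩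
  · rw [vadd_vadd] at c
    rw [vv, vadd_vadd]
    refine a.2 _ ⟨φ, c, fun i => ?_⟩
    have o := e _ φ c (i1 (i0 (e1 m a.1)) (by simpa using i0 ⟨φ, by rwa [vadd_vadd], l⟩)) i
    have := o false; have := o true; have := l i; have := k i; have := (b i).2.2.1; have := (b i).2.2.2.1
    simp only [Pi.add_apply] at *
    omega
  · obtain ⟨c1, c2, -, -, c5⟩ := b i
    have := k i
    simp only [vv, Pi.sub_apply, sub_sub_sub_cancel_right]
    exact ⟨c1, c2, by omega, by omega, fun c j => by have := c5 c j; omega⟩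

end Pool.Agent.H.MP_74d590_lc
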