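import Mathlib
import Pool.Agent.H.MP_74d590_lc.C
import Pool.Agent.H.MP_74d590_lc.M
import Pool.Agent.Lib.helper22.Benois

namespace Pool.Agent.H.MP_74d590_lc

open Filter Topology
open scoped Classical

section
variable {ι : Type}

abbrev Fr (ι : Type) := {x : (ι → ℤ) → Bool // ∀ g, g ≠ 0 → (fun h => x (h + g)) ≠ x}

instance : AddAction (ι → ℤ) (Fr ι) where
  vadd g x := ⟨fun h => x.1 (h + g), fun k a b => x.2 k a (funext fun h => by simpa [add_right_comm _ k] using congrFun b (h - g))⟩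
  zero_vadd x := Subtype.ext (funext fun h => congrArg x.1 (add_zero h))
  add_vadd a b x := Subtype.ext (funext fun h => congrArg x.1 (add_assoc h a b).symm)

theorem vadd_val (g : ι → ℤ) (x : Fr ι) (h) : (g +ᵥ x).1 h = x.1 (h + g) := rfl

instance : ContinuousConstVAdd (ι → ℤ) (Fr ι) :=
  ⟨fun g => continuous_induced_rng.2 (continuous_pi fun h => (continuous_apply (h + g)).comp continuous_subtype_val)⟩

variable [Fintype ι]

theorem idx (L : ℤ) : ∃ κ : Fr ι → ℕ, IsLocallyConstant κ ∧ ∀ x (g : ι → ℤ), g ≠ 0 → (∀ i, |g i| ≤ L) → κ (g +ᵥ x) ≠ κ x := by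
  obtain ⟨en, he⟩ := exists_surjective_nat (ι → ℤ)
  have ex : ∀ x : Fr ι, ∃ R, ∀ g ∈ {g : ι → ℤ | ∀ i, |g i| ≤ L}, g ≠ 0 → ∃ j < R, x.1 (en j + g) ≠ x.1 (en j) := fun x =>
    ((eventually_all_finite (l := atTop) (box_fin L)).2 fun g _ => eventually_imp_distrib_left.2 fun a => by
      obtain ⟨h, b⟩ := Function.ne_iff.1 (x.2 g a)
      obtain ⟨j, rfl⟩ := he h
      filter_upwards [eventually_gt_atTop j] with R c using ⟨j, c, b⟩).exists
  refine ⟨fun x => Encodable.encode ((List.range (Nat.find (ex x))).map fun j => x.1 (en j)), (IsLocallyConstant.iff_eventually_eq _).2 fun x => ?_,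
    fun x g a b c => ?_⟩
  · filter_upwards [(eventually_all_finite ((box_fin (ι := ι) L).insert 0)).2 fun g _ => (eventually_all_finite (Set.finite_lt_nat (Nat.find (ex x)))).2 fun j _ =>
      ((IsLocallyConstant.iff_continuous _).2 ((continuous_apply (en j + g)).comp continuous_subtype_val)).eventually_eq x] with y a
    have z : ∀ j < Nat.find (ex x), y.1 (en j) = x.1 (en j) := fun j b => by simpa using a 0 (.inl rfl) j b
    have b : ∀ R ≤ Nat.find (ex x), ∀ g ∈ {g : ι → ℤ | ∀ i, |g i| ≤ L}, (∃ j < R, y.1 (en j + g) ≠ y.1 (en j)) ↔ ∃ j < R, x.1 (en j + g) ≠ x.1 (en j) :=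
      fun R b g c => exists_congr fun j => and_congr_right fun d => by rw [z j (d.trans_le b), ← show _ = x.1 _ from a g (.inr c) j (d.trans_le b)]; rfl
    rw [(Nat.find_eq_iff (ex y)).2 ⟨fun g c d => (b _ le_rfl g c).2 (Nat.find_spec (ex x) g c d),
      fun R c d => Nat.find_min (ex x) c fun g i j => (b R c.le g i).1 (d g i j)⟩]
    exact congrArg _ (List.map_congr_left fun j c => z j (List.mem_range.1 c))
  · have c := Encodable.encode_injective c
    rw [show Nat.find (ex (g +ᵥ x)) = Nat.find (ex x) by simpa using congrArg List.length c] at c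
    obtain ⟨j, d, e⟩ := Nat.find_spec (ex x) g b a
    exact e (List.map_inj_left.1 c j (List.mem_range.2 d))

omit [Fintype ι] in
theorem fin_free {y : (ι → ℤ) → Bool} (h : {g | y g}.Finite) {a} (ha : y a) (g) (k : g ≠ 0) : (fun h => y (h + g)) ≠ y := fun e => by
  refine Set.infinite_of_injective_forall_mem (f := fun j : ℕ => a + j • g) (fun i j b => by
    obtain ⟨t, c⟩ := Function.ne_iff.1 k
    simpa [show g t ≠ 0 from c] using congrFun b t) (fun j => ?_) h
  induction j with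
  | zero => simpa
  | succ j ih => exact (congrArg y (by rw [succ_nsmul, add_assoc])).trans ((congrFun e _).trans ih)

theorem cyl [Nonempty ι] {C : Set (Fr ι)} (hC : IsOpen C) {x} (h : x ∈ C) : ∃ m : ℕ, ∀ V : Set (ι → ℤ), V.Finite → V.Nonempty →
    (∀ v ∈ V, ∀ w ∈ V, v ≠ w → ∃ i, m < |v i - w i|) → ∃ y, ∀ v ∈ V, v +ᵥ y ∈ C := by
  obtain ⟨U, hU, rfl⟩ := isOpen_induced_iff.1 hC
  obtain ⟨I, u, a, b⟩ := isOpen_pi_iff.1 hU _ h
  obtain ⟨z, hz⟩ : ∃ z, x.1 z := by_contra fun k => x.2 1 one_ne_zero (funext fun h => by simp_all)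
  obtain ⟨B, hB⟩ := (((insert z I).finite_toSet.prod Set.finite_univ).image fun p : _ × ι => (p.1 p.2).natAbs).bddAbove
  refine ⟨2 * B, fun V c ⟨v, d⟩ e => ⟨⟨fun h => decide (∃ v ∈ V, h - v ∈ insert z I ∧ x.1 (h - v)), fin_free (y := fun h => decide (∃ v ∈ V, h - v ∈ insert z I ∧ x.1 (h - v))) (a := z + v)
    (((c.prod (insert z I).finite_toSet).image fun p => p.2 + p.1).subset fun h k => ?_) (decide_eq_true ⟨v, d, by simp, by simpa⟩)⟩, fun w f => b fun s k => ?_⟩⟩
  · obtain ⟨v, i, j, -⟩ := of_decide_eq_true k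
    exact ⟨(v, _), ⟨i, j⟩, by simp⟩
  refine cast (congrArg (· ∈ u s) (Bool.eq_iff_iff.2 ?_)) (a s k).2
  simp only [vadd_val, decide_eq_true_eq]
  refine ⟨fun i => ⟨w, f, by simp [show s ∈ I from k], by simpa⟩, fun ⟨v, i, j, l⟩ => ?_⟩
  obtain rfl : v = w := by_contra fun n => by
    obtain ⟨t, o⟩ := e v i w f n
    have := hB ⟨(_, t), ⟨j, trivial⟩, rfl⟩
    have := hB ⟨(s, t), ⟨Finset.mem_insert_of_mem k, trivial⟩, rfl⟩
    simp only [Pi.sub_apply, Pi.add_apply, lt_abs] at *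
    omega
  simpa using l

end

def emb (m : ℕ) (p : ℤ × ℤ) : Fin (m + 2) → ℤ := fun j => if j = 0 then p.1 else if j = 1 then p.2 else 0

theorem emb_add {m} (p q : ℤ × ℤ) : emb m (p + q) = emb m p + emb m q := by funext j; simp only [emb, Pi.add_apply]; split_ifs <;> simp
theorem emb_inj {m} : Function.Injective (emb m) := fun p q h => Prod.ext (by simpa [emb] using congrFun h 0) (by simpa [emb] using congrFun h 1)

noncomputable def tile (m K : ℕ) (τ : Ty) : List (Fin (m + 2) → ℤ) :=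
  ((List.range (3 * (3 * K + 4)) ×ˢ List.range (3 * (3 * K + 4))).filter fun z => Sh K τ z.1 z.2).map fun z => emb m (z.1, z.2)

theorem mem_tile {m K τ} (h : Wf K τ) (a : τ.2.1 < 2 * (3 * K + 4)) (b : τ.2.2 < 2 * (3 * K + 4)) {p u} (g) :
    emb m u + g - (emb m p + g) ∈ tile m K τ ↔ Cov (Sh K) p τ u := by
  simp only [tile, List.mem_map, List.mem_filter, decide_eq_true_eq, Prod.exists, List.mem_product, List.mem_range, add_sub_add_right_eq_sub,
    eq_sub_iff_add_eq', ← emb_add, emb_inj.eq_iff, Cov]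
  refine exists₂_congr fun x y => ⟨fun ⟨c, d⟩ => d ▸ ⟨rfl, rfl, c.2⟩, fun ⟨c, d, e⟩ => ⟨⟨?_, e⟩, Prod.ext c.symm d.symm⟩⟩
  obtain ⟨e, -⟩ | ⟨s, -, e⟩ := e
  · unfold Bd at e; omega
  · have := oo (3 * K + 4) s
    have := h.1 s
    have := (s + 2).2
    unfold hole at e
    omega

theorem tile_emb {m K τ h g} (a : h - g ∈ tile m K τ) : ∃ p, g = emb m p + h := by
  obtain ⟨z, -, b⟩ := List.mem_map.1 a
  refine ⟨-((z.1 : ℤ), (z.2 : ℤ)), funext fun j => ?_⟩
  have := congrFun b j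
  simp only [emb, Pi.sub_apply, Pi.add_apply, Prod.fst_neg, Prod.snd_neg] at *
  split_ifs at * <;> omega

theorem Til.shift {S Pl} (h : Til S Pl) (w : ℤ × ℤ) : Til S fun p => Pl (p + w) := by
  have : ∀ p τ u, Cov S (p + w) τ (u + w) ↔ Cov S p τ u := fun p τ u => exists₂_congr fun x y => by simp [add_right_comm _ w.1, add_right_comm _ w.2]
  refine ⟨fun u => ?_, fun u p τ p' τ' a a' b b' => (h.2 _ _ _ _ _ a a' ((this ..).2 b) ((this ..).2 b')).imp_left add_right_cancel⟩
  obtain ⟨p, τ, a, b⟩ := h.1 (u + w)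
  exact ⟨p - w, τ, by simpa, (this ..).1 (by simpa)⟩

open Lib.FGp in
theorem pp_Sh {α : Type} [Primcodable α] {K a b x y : α → ℕ} {c : α → Fin 4 → ℕ} (hK : Primrec K) (ha : Primrec a) (hb : Primrec b) (hx : Primrec x)
    (hy : Primrec y) (hc : ∀ s, Primrec (c · s)) : PrimrecPred fun z => Sh (K z) (c z, a z, b z) (x z) (y z) := by
  have ad : ∀ {f g : α → ℕ}, Primrec f → Primrec g → Primrec fun z => f z + g z := Primrec.nat_add.comp
  have mu : ∀ {f : α → ℕ} k, Primrec f → Primrec fun z => k * f z := fun k => Primrec.nat_mul.comp (.const k)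
  have N := ad (mu 3 hK) (.const 4)
  have H : ∀ {k u v : α → ℕ}, Primrec k → Primrec u → Primrec v → PrimrecPred fun z => hole (K z) (k z) (u z) (v z) (x z) (y z) := fun k u v =>
    ((Primrec.nat_le.comp (ad u (.const 2)) hx).and ((Primrec.nat_lt.comp hx (ad (ad u (.const 2)) hK)).and
      (Primrec.eq.comp hy (ad (ad v (mu 3 k)) (.const 2))))).or ((Primrec.eq.comp hx (ad (ad u (.const 2)) k)).and
        (Primrec.eq.comp hy (ad (ad v (mu 3 k)) (.const 3))))
  refine .or (.and ((Primrec.nat_le.comp N hx).and ((Primrec.nat_lt.comp hx (ad N ha)).and ((Primrec.nat_le.comp N hy).and (Primrec.nat_lt.comp hy (ad N hb)))))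
    ((fin_ex fun s => (Primrec.eq.comp (hc s) (.const 0)).not.and (H (ad (mu 4 (hc s)) (.const s.1)) N N)).not.of_eq (by simp)))
    (fin_ex fun s => (Primrec.eq.comp (hc s) (.const 0)).not.and (H (ad (mu 4 (hc s)) (.const _)) ?_ ?_)) <;> fin_cases s
  exacts [mu 2 N, N, .const 0, N, N, mu 2 N, N, .const 0]

end Pool.Agent.H.MP_74d590_lc
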