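import Mathlib
import Pool.Agent.H.MP_74d590_lc.F

namespace Pool.Agent.H.MP_74d590_lc

open Pool.Agent.Lib.helper21.Mach Pool.Agent.Lib.FGp Pool.Agent.Lib.Benois
open scoped Classical

theorem pr_emb (m : ℕ) : Primrec fun z : ℕ × ℕ => emb m (z.1, z.2) := by
  have c : Primrec (Nat.cast : ℕ → ℤ) := Primrec.encode_iff.1 ((Primrec.nat_mul.comp (.const 2) .id).of_eq fun n => rfl)
  refine Primrec.fin_curry.2 (fin_arg fun j => ?_)
  unfold emb
  split_ifs
  exacts [c.comp .fst, c.comp .snd, .const _]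

theorem ad {α : Type} [Primcodable α] {f : α → ℕ} (k) (h : Primrec f) : Primrec fun z => f z + k := Primrec.nat_add.comp h (.const k)
theorem mu {α : Type} [Primcodable α] {f : α → ℕ} (k) (h : Primrec f) : Primrec fun z => k * f z := Primrec.nat_mul.comp (.const k) h
theorem im {α : Type} [Primcodable α] {p q : α → Prop} (a : PrimrecPred p) (b : PrimrecPred q) : PrimrecPred fun z => p z → q z :=
  (a.not.or b).of_eq fun _ => imp_iff_not_or.symm

theorem pr_tile (m) {α : Type} [Primcodable α] {K a b : α → ℕ} {c : α → Fin 4 → ℕ} (hK : Primrec K) (ha : Primrec a) (hb : Primrec b)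
    (hc : ∀ s, Primrec (c · s)) : Primrec fun z => tile m (K z) (c z, a z, b z) :=
  have r := Primrec.list_range.comp (mu 3 (ad 4 (mu 3 hK)))
  Primrec.list_map (pr_filter (R := fun z w => Sh (K z) (c z, a z, b z) w.1 w.2) (pr_prod.comp r r) (pp_Sh (hK.comp .fst) (ha.comp .fst) (hb.comp .fst)
    (Primrec.fst.comp .snd) (Primrec.snd.comp .snd) (c := fun z => c z.1) fun s => (hc s).comp (g := Prod.fst) .fst)) ((pr_emb m).comp .snd).to₂

variable {Q : Type} (M : CM Q)

theorem pp_Ok [Finite Q] (θ : Th Q) : PrimrecRel fun n i => Ok M n θ i := by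
  refine (Primrec.nat_le.comp .snd (ad 1 .fst)).and ((im (pp_const _) ((Primrec.eq.comp .snd (.const 0)).and (pp_const _))).and
    ((im (pp_const _) ((Primrec.eq.comp .snd (ad 1 .fst)).and (pp_const _))).and ((pp_const _).and ((pp_const _).and
      ((fin_ex (β := Q × Bool) fun x => (im (pp_const (θ.g = some x)) (im (Primrec.eq.comp .snd
        (show Primrec fun z : ℕ × ℕ => M.thr z.1 x.1 from ?_)) (pp_const (x.2 = !θ.c x.1)))).not).not.of_eq fun z => by
          simp only [not_exists, not_not, Prod.forall])))))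
  unfold CM.thr
  split_ifs
  exacts [.fst, .const 0]

theorem pr_col (e) (θ : Th Q) (s) : Primrec₂ fun n i => col M e n θ i s := by
  unfold col
  split_ifs
  · exact .const 0
  refine ad 1 (Primrec₂.natPair.comp (.const _) ?_)
  fin_cases s
  exacts [Primrec.nat_min.comp (ad 1 .snd) (ad 1 .fst), .const 0, .snd, .const 0]

noncomputable def tl (m : ℕ) (e : La Q → ℕ) (K : ℕ) (θ : Th Q) (n : ℕ) : List (List (Fin (m + 2) → ℤ)) :=
  ((List.range (2 * (3 * K + 4)) ×ˢ List.range (2 * (3 * K + 4)) ×ˢ List.range (2 * (3 * K + 4))).filter fun z =>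
    Ok M n θ z.1 ∧ 3 * K + 4 ≤ z.2.1 ∧ 3 * K + 4 ≤ z.2.2).map fun z => tile m K (col M e n θ z.1, z.2.1, z.2.2)

attribute [local irreducible] col Ok tile in
theorem pr_tl [Finite Q] (m e θ) {K : ℕ → ℕ} (pK : Primrec K) : Primrec fun n => tl M m e (K n) θ n := by
  have pN := ad 4 (mu 3 pK)
  have pR := Primrec.list_range.comp (mu 2 pN)
  have i : Primrec fun z : ℕ × ℕ × ℕ × ℕ => z.2.1 := Primrec.fst.comp .snd
  have j : Primrec fun z : ℕ × ℕ × ℕ × ℕ => z.2.2.1 := Primrec.fst.comp (Primrec.snd.comp .snd)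
  have k : Primrec fun z : ℕ × ℕ × ℕ × ℕ => z.2.2.2 := Primrec.snd.comp (Primrec.snd.comp .snd)
  have a := (pp_Ok M θ).comp .fst i
  have b : ∀ s, Primrec fun z : ℕ × ℕ × ℕ × ℕ => col M e z.1 θ z.2.1 s := fun s => (pr_col M e θ s).comp .fst i
  have c := pr_tile m (pK.comp .fst) j k (c := fun z => col M e z.1 θ z.2.1) b
  have d := a.and ((Primrec.nat_le.comp (pN.comp .fst) j).and (Primrec.nat_le.comp (pN.comp .fst) k))
  have f := pr_filter (R := fun n z => Ok M n θ z.1 ∧ 3 * K n + 4 ≤ z.2.1 ∧ 3 * K n + 4 ≤ z.2.2) (pr_prod.comp pR (pr_prod.comp pR pR)) d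
  exact Primrec.list_map f c.to₂

theorem lists (m : ℕ) [Finite Q] : ∃ (e : La Q → ℕ) (K : ℕ → ℕ) (L : ℕ → List (List (Fin (m + 2) → ℤ))), Function.Injective e ∧ Primrec L ∧
    ∀ n, (∀ τ, Al M e n (3 * K n + 4) τ → Wf (K n) τ) ∧ ∀ T, T ∈ L n ↔ ∃ τ, Al M e n (3 * K n + 4) τ ∧ tile m (K n) τ = T := by
  obtain ⟨B, ⟨e⟩⟩ := Finite.exists_equiv_fin (La Q)
  have : Finite (Th Q) := .of_injective (fun θ => (θ.g, θ.l, θ.c, θ.r, θ.f)) fun ⟨_, _, _, _, _⟩ ⟨_, _, _, _, _⟩ => by simp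
  obtain ⟨l, -, hl⟩ := Finite.exists_univ_list (Th Q)
  let K := fun n => 4 * ((B + n + 2) * (B + n + 2)) + 4
  have pK : Primrec K := have := ad 2 (Primrec.nat_add.comp (.const B) .id); ad 4 (mu 4 (Primrec.nat_mul.comp this this))
  refine ⟨(e ·), K, fun n => l.flatMap (tl M m (e ·) (K n) · n), Fin.val_injective.comp e.injective, ?_, fun n => ⟨?_, fun T => ?_⟩⟩
  · clear hl
    induction l with
    | nil => exact .const []
    | cons θ l ih => exact Primrec.list_append.comp (pr_tl M m _ θ pK) ih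
  · rintro τ ⟨θ, i, a, b, c⟩
    refine ⟨fun s => ?_, c.1, c.2.2.1⟩
    have d : ![min (i + 1) (n + 1), 0, i, 0] s ≤ n + 1 := by have := a.1; fin_cases s <;> simp <;> omega
    have := (Nat.pair_lt_max_add_one_sq (e (dt M θ s)) _).trans_le (Nat.pow_le_pow_left
      (show max (e (dt M θ s)).1 (![min (i + 1) (n + 1), 0, i, 0] s) + 1 ≤ B + n + 2 by have := (e (dt M θ s)).2; omega) 2)
    rw [sq] at this
    simp only [b, col, K]
    split_ifs <;> omega
  · simp only [List.mem_flatMap, hl, true_and, tl, List.mem_map, List.mem_filter, decide_eq_true_eq, Prod.exists, List.mem_product, List.mem_range, Al]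
    refine ⟨fun ⟨θ, i, a, b, c, d⟩ => ⟨_, a, b, ⟨θ, i, c.2.1, rfl, by omega⟩, d⟩, ?_⟩
    rintro ⟨_, a, b, ⟨θ, i, c, rfl, d⟩, rfl⟩
    have := c.1
    have : B + n + 2 ≤ (B + n + 2) * (B + n + 2) := Nat.le_mul_self _
    exact ⟨θ, i, a, b, ⟨by simp only [K] at *; omega, c, by omega⟩, rfl⟩

end Pool.Agent.H.MP_74d590_lc
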